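import Pool.Agent.H.MP_625e57_gt.D

namespace Pool.Agent.H.MP_625e57_gt
open Set

variable {m : ℕ} {V : Fin m → Fin 4 → ℝ}

theorem cuts_nonneg {l s} (h : Cuts V l s) (i) : 0 ≤ l (V i) := by
  by_cases hi : i ∈ s
  exacts [((h i).1 hi).ge, ((h i).2 hi).le]

theorem nbr (hV : ∀ i, ∃ l, Cuts V l {i}) (φ : (Fin 4 → ℝ) →ₗ[ℝ] ℝ) {v : Fin m} (hv : 0 < φ (V v))
    (ha : ∀ x, Adj V v x → φ (V x) < 0) {w : Fin m} (hw : w ≠ v) : φ (V w) < 0 := by
  choose L hL using hV
  have L0 : ∀ i, L i (V i) = 0 := fun i => (hL i i).1 rfl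
  have Lp : ∀ i j, j ≠ i → 0 < L i (V j) := fun i j h => (hL i j).2 h
  let π : (Fin 4 → ℝ) →ₗ[ℝ] Fin 4 → ℝ := LinearMap.id - φ.smulRight ((φ (V v))⁻¹ • V v)
  let p : Fin m → Fin 4 → ℝ := fun x => (L v (V x))⁻¹ • π (V x)
  have Lpx : ∀ i x, L i (p x) = (L v (V x))⁻¹ * (L i (V x) - φ (V x) * ((φ (V v))⁻¹ * L i (V v))) :=
    fun i x => by simp [p, π]
  have half : ∀ x y, x ≠ v → y ≠ v → x ≠ y → p x = p y →
      (L v (V x))⁻¹ * φ (V x) < (L v (V y))⁻¹ * φ (V y) := fun x y hx hy hxy h => by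
    have h1 := congrArg (L x) h
    rw [Lpx, Lpx, L0] at h1
    have h2 : 0 < (φ (V v))⁻¹ * L x (V v) := mul_pos (inv_pos.mpr hv) (Lp x v hx.symm)
    have h3 := mul_pos (inv_pos.mpr (Lp v y hy)) (Lp x y hxy.symm)
    refine lt_of_mul_lt_mul_right ?_ h2.le
    linarith
  have hS : (p '' {v}ᶜ).Finite := toFinite _
  have hE := extremePoints_convexHull_subset (𝕜 := ℝ) (A := p '' {v}ᶜ)
  have hK := closure_convexHull_extremePoints (hS.isCompact_convexHull ℝ) (convex_convexHull ℝ _)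
  rw [((hS.subset hE).isClosed_convexHull ℝ).closure_eq] at hK
  have key : convexHull ℝ (p '' {v}ᶜ) ⊆ {y | 0 < L w y} := by
    rw [← hK]
    refine convexHull_min (fun e he => ?_) (convex_halfSpace_gt (L w).isLinear 0)
    obtain ⟨x, hx, rfl⟩ := hE he
    have h1 := ((convex_convexHull ℝ _).mem_extremePoints_iff_mem_sdiff_convexHull_sdiff.mp he).2
    obtain ⟨f, u, h2, h3⟩ := geometric_hahn_banach_point_closed (convex_convexHull ℝ _)
      ((hS.subset (diff_subset (t := {p x}))).isClosed_convexHull ℝ)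
      fun h => h1 (convexHull_mono (diff_subset_diff_left (subset_convexHull ℝ _)) h)
    have θ : ∀ y, y ≠ v → (f.toLinearMap ∘ₗ π - f (p x) • L v) (V y) =
        L v (V y) * (f (p y) - f (p x)) := fun y hy => by
      have := (Lp v y hy).ne'
      simp only [p, LinearMap.sub_apply, LinearMap.comp_apply, LinearMap.smul_apply, map_smul,
        smul_eq_mul, ContinuousLinearMap.coe_coe]
      field_simp
    have adj : Adj V v x := ⟨Ne.symm hx, f.toLinearMap ∘ₗ π - f (p x) • L v, fun y => ⟨?_, fun hy => ?_⟩⟩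
    · have := mul_pos (mul_pos (neg_pos.mpr (ha x adj)) (inv_pos.mpr hv)) (Lp w v hw.symm)
      have h4 := cuts_nonneg (hL w) x
      change 0 < L w (p x)
      rw [Lpx]
      exact mul_pos (inv_pos.mpr (Lp v x hx)) (by linarith)
    · rintro (rfl | rfl)
      · simp [π, L0, hv.ne']
      · rw [θ _ hx, sub_self, mul_zero]
    · simp only [mem_insert_iff, mem_singleton_iff, not_or] at hy
      rw [θ _ hy.1]
      refine mul_pos (Lp v y hy.1) (sub_pos.mpr (h2.trans (h3 _ (subset_convexHull ℝ _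
        ⟨⟨y, hy.1, rfl⟩, fun h => ?_⟩))))
      exact (half y x hy.1 hx hy.2 h).not_gt (half x y hx hy.1 (Ne.symm hy.2) (Eq.symm h))
  have h := key (subset_convexHull ℝ _ ⟨w, hw, rfl⟩)
  rw [mem_setOf_eq, Lpx, L0] at h
  have h2 := (mul_pos_iff_of_pos_left (inv_pos.mpr (Lp v w hw))).mp h
  have h3 := mul_pos (inv_pos.mpr hv) (Lp w v hw.symm)
  by_contra c
  nlinarith [mul_nonneg (not_lt.mp c) h3.le]

def lorL (u : Fin 4 → ℝ) : (Fin 4 → ℝ) →ₗ[ℝ] ℝ where
  toFun := lor u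
  map_add' x y := by simp [lor]; ring
  map_smul' c x := by simp [lor]; ring

theorem disj {a b : Fin 4 → ℝ} {s t : ℝ} (hs : 0 < s) (ht : 0 < t)
    (h : lor (s • a + t • b) (s • a + t • b) ≤ 0) (h3 : 0 ≤ (s • a + t • b) 3) :
    Disjoint (disk a) (disk b) := by
  refine disjoint_left.mpr fun p h1 h2 => ?_
  have e := add_pos (mul_pos hs h1.2) (mul_pos ht h2.2)
  have e1 := h1.1
  have e2 : (s • a + t • b) 3 < (s • a + t • b) 0 * p 0 + (s • a + t • b) 1 * p 1 +
      (s • a + t • b) 2 * p 2 := by simp only [Pi.add_apply, Pi.smul_apply, smul_eq_mul]; linarith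
  unfold lor at h
  generalize s • a + t • b = y at *
  have e3 := mul_self_lt_mul_self h3 e2
  have e4 : (y 0 * y 0 + y 1 * y 1 + y 2 * y 2) * (p 0 ^ 2 + p 1 ^ 2 + p 2 ^ 2) =
    y 0 * y 0 + y 1 * y 1 + y 2 * y 2 := by rw [e1, mul_one]
  nlinarith [sq_nonneg (y 0 * p 1 - y 1 * p 0), sq_nonneg (y 0 * p 2 - y 2 * p 0),
    sq_nonneg (y 1 * p 2 - y 2 * p 1)]

theorem rev {x y : Fin 4 → ℝ} (hx : lor x x ≤ 0) (hy : lor y y ≤ 0) (h1 : 0 < x 3) (h2 : y 3 < 0) :
    0 ≤ lor x y := by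
  unfold lor at *
  have e : (x 0 * x 0 + x 1 * x 1 + x 2 * x 2) * (y 0 * y 0 + y 1 * y 1 + y 2 * y 2) ≤
      (x 3 * x 3) * (y 3 * y 3) := mul_le_mul (by linarith) (by linarith)
        (by nlinarith [mul_self_nonneg (y 0), mul_self_nonneg (y 1), mul_self_nonneg (y 2)])
        (mul_self_nonneg _)
  have := abs_le_of_sq_le_sq' (a := x 0 * y 0 + x 1 * y 1 + x 2 * y 2) (b := x 3 * -y 3) (by
    nlinarith [sq_nonneg (x 0 * y 1 - x 1 * y 0), sq_nonneg (x 0 * y 2 - x 2 * y 0),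
      sq_nonneg (x 1 * y 2 - x 2 * y 1)]) (mul_pos h1 (neg_pos.mpr h2)).le
  linarith [this.1]

theorem dich (hV : ConvexPoly V) (hL : LocShallow V) : GlobShallow V ∨ GlobShallow (-V) := by
  let r : Fin m → ℝ := fun i => (√(lor (V i) (V i)))⁻¹
  have rp : ∀ i, 0 < r i := fun i => inv_pos.mpr (Real.sqrt_pos.mpr (hV.1 i))
  have ie : ∀ i j, inv (V i) (V j) = -(r i * r j * lor (V i) (V j)) := fun i j => by
    simp only [inv, r]; ring
  have ie' : ∀ i j, inv (-V i) (-V j) = inv (V i) (V j) := fun i j => by simp [inv, lor]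
  have r1 : ∀ i, inv (V i) (V i) = -1 := fun i => by
    rw [inv, Real.mul_self_sqrt (hV.1 i).le, neg_div, div_self (hV.1 i).ne']
  have pos : ∀ i j, i ≠ j → 0 < inv (V i) (V j) := fun i j h => by
    have := nbr hV.2.2 (lorL (V i)) (hV.1 i) (fun x hx => by
      have := (hL i x hx).1
      rw [ie] at this
      exact neg_of_mul_neg_right (neg_pos.mp this) (mul_pos (rp i) (rp x)).le) h.symm
    rw [ie]
    exact neg_pos.mpr (mul_neg_of_pos_of_neg (mul_pos (rp i) (rp j)) this)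
  have sy : ∀ i j, inv (V i) (V j) = inv (V j) (V i) := fun i j => by
    rw [ie, ie]; unfold lor; ring
  have ex : ∀ i j k l, lor (r i • V i + r j • V j) (r k • V k + r l • V l) =
      -(inv (V i) (V k) + inv (V i) (V l) + inv (V j) (V k) + inv (V j) (V l)) := fun i j k l => by
    simp only [ie, lor, Pi.add_apply, Pi.smul_apply, smul_eq_mul]; ring
  have cau : ∀ i j, 1 ≤ inv (V i) (V j) →
      lor (r i • V i + r j • V j) (r i • V i + r j • V j) ≤ 0 := fun i j h => by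
    rw [ex, r1, r1, sy j i]; linarith
  by_contra c
  simp only [not_or, GlobShallow, Shallow, not_forall, not_and] at c
  obtain ⟨⟨i, j, hij, h1⟩, k, l, hkl, h2⟩ := c
  obtain ⟨a1, a2⟩ := h1 (pos i j hij)
  simp only [Pi.neg_apply, ie'] at h2
  obtain ⟨b1, b2⟩ := h2 (pos k l hkl)
  have t1 : (r i • V i + r j • V j) 3 < 0 := not_le.mp fun h => a2 (disj (rp i) (rp j) (cau i j a1) h)
  have t2 : 0 < (r k • V k + r l • V l) 3 := not_le.mp fun h => b2 (disj (rp k) (rp l)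
    (by have := cau k l b1; simp only [lor, Pi.add_apply, Pi.smul_apply, Pi.neg_apply,
      smul_eq_mul] at this ⊢; linarith)
    (by simp only [Pi.add_apply, Pi.smul_apply, Pi.neg_apply, smul_eq_mul] at h ⊢; linarith))
  have t3 := rev (cau k l b1) (cau i j a1) t2 t1
  rw [ex] at t3
  by_cases e1 : k = i
  · subst e1
    by_cases e2 : l = j
    · subst e2; linarith
    · have := pos l j e2
      rw [r1, sy l k] at t3; linarith
  by_cases e2 : k = j
  · subst e2
    by_cases e3 : l = i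
    · subst e3; rw [add_comm] at t1; linarith
    · have := pos l i e3
      rw [r1, sy l k, sy k i] at t3; linarith
  have p1 := pos k i e1
  have p2 := pos k j e2
  by_cases e3 : l = i
  · subst e3; rw [r1] at t3; linarith
  by_cases e4 : l = j
  · subst e4; rw [r1, sy l i] at t3; linarith
  linarith [pos l i e3, pos l j e4]

def oct : Fin 6 → Fin 4 → ℝ :=
  ![![3, 0, 0, -2], ![-3, 0, 0, -2], ![0, 3, 0, -2], ![0, -3, 0, -2], ![0, 0, 3, -2], ![0, 0, -3, -2]]

theorem lin (l : (Fin 4 → ℝ) →ₗ[ℝ] ℝ) : ∃ a b c d : ℝ, ∀ u, l u = u 0 * a + u 1 * b + u 2 * c + u 3 * d :=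
  ⟨_, _, _, _, fun u => by rw [LinearMap.pi_apply_eq_sum_univ, Fin.sum_univ_four]; rfl⟩

theorem oct_conv : ConvexPoly oct := by
  refine ⟨fun i => by fin_cases i <;> simp [oct, lor] <;> norm_num, ?_, fun i =>
    ⟨lorL ![-4 * oct i 0, -4 * oct i 1, -4 * oct i 2, 18], fun j => ?_⟩⟩
  · refine eq_top_iff.mpr fun u _ => (Submodule.mem_span_range_iff_exists_fun ℝ).mpr
      ⟨![u 0 / 6 - u 3 / 4, -u 0 / 6 - u 3 / 4, u 1 / 6, -u 1 / 6, u 2 / 6, -u 2 / 6], ?_⟩
    ext k
    fin_cases k <;> simp [oct, Fin.sum_univ_six] <;> ring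
  · fin_cases i <;> fin_cases j <;> simp [oct, lorL, lor] <;> norm_num

theorem oct_hyp : Hyperbolic oct := fun l s hl hc hs => by
  obtain ⟨a, b, c, d, e⟩ := lin l
  have n := cuts_nonneg hc
  have n0 := n 0; have n1 := n 1; have n2 := n 2; have n3 := n 3; have n4 := n 4; have n5 := n 5
  simp [e, oct] at n0 n1 n2 n3 n4 n5
  have hd : d ≠ 0 := fun h => hl (LinearMap.ext fun u => by
    rw [e, h, show a = 0 by linarith, show b = 0 by linarith, show c = 0 by linarith]; simp)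
  have key : ∀ (k : Fin 4) (i j : Fin 6) (u : Fin 4 → ℝ), (∀ x, x ≠ i → x ≠ j → oct x k = 0) →
      l u = 0 → u k ≠ 0 → l (oct i) * l (oct j) = 0 := fun k i j u h hu hk => by
    by_contra c
    refine hk ((hs.ge.trans (Submodule.span_le.mpr ?_) :
      _ ≤ LinearMap.ker (LinearMap.proj (R := ℝ) (φ := fun _ => ℝ) k)) hu)
    rintro _ ⟨x, hx, rfl⟩
    exact h x (fun h => c (by rw [← h, (hc x).1 hx, zero_mul]))
      fun h => c (by rw [← h, (hc x).1 hx, mul_zero])
  have k0 := key 0 0 1 ![d, 0, 0, -a] (fun x => by fin_cases x <;> simp [oct]) (by simp [e]; ring) hd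
  have k1 := key 1 2 3 ![0, d, 0, -b] (fun x => by fin_cases x <;> simp [oct]) (by simp [e]; ring) hd
  have k2 := key 2 4 5 ![0, 0, d, -c] (fun x => by fin_cases x <;> simp [oct]) (by simp [e]; ring) hd
  simp only [e] at k0 k1 k2
  change (3 * a + 0 * b + 0 * c + -2 * d) * (-3 * a + 0 * b + 0 * c + -2 * d) = 0 at k0
  change (0 * a + 3 * b + 0 * c + -2 * d) * (0 * a + -3 * b + 0 * c + -2 * d) = 0 at k1
  change (0 * a + 0 * b + 3 * c + -2 * d) * (0 * a + 0 * b + -3 * c + -2 * d) = 0 at k2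
  refine ⟨![3 * a, 3 * b, 3 * c, -4 * d], by simp [e]; linarith, ?_⟩
  simp [lor]
  nlinarith [mul_self_pos.mpr hd]

theorem s5 : √(5 : ℝ) * √5 = 5 := Real.mul_self_sqrt (by norm_num)

theorem oct_inv (i j) : inv (oct i) (oct j) = -lor (oct i) (oct j) / 5 := by
  have : ∀ i, lor (oct i) (oct i) = 5 := fun i => by fin_cases i <;> simp [oct, lor] <;> norm_num
  rw [inv, this, this, s5]

theorem oct_loc : LocShallow oct := fun i j ⟨hij, l, hc⟩ => by
  obtain ⟨a, b, c, d, e⟩ := lin l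
  have h : lor (oct i) (oct j) = -4 := by
    have n0 := hc 0; have n1 := hc 1; have n2 := hc 2; have n3 := hc 3; have n4 := hc 4
    have n5 := hc 5
    fin_cases i <;> fin_cases j <;> simp [e, oct, lor] at hij n0 n1 n2 n3 n4 n5 ⊢ <;> linarith
  rw [Shallow, oct_inv, h]
  norm_num

theorem oct_not : ¬ GlobShallow oct := fun h => by
  have := (h 0 1 (by decide)).2 (by rw [oct_inv]; simp [oct, lor]; norm_num)
  exact (Set.disjoint_left.mp this) (show ![0, 1, 0] ∈ _ by simp [disk, oct]) (by simp [disk, oct])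

end Pool.Agent.H.MP_625e57_gt
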