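import Mathlib

namespace Pool.Agent.H.MP_625e57_gt

/-- The Lorentz form on `ℝ^{3,1}`. -/
def lor (u v : Fin 4 → ℝ) : ℝ := u 0 * v 0 + u 1 * v 1 + u 2 * v 2 - u 3 * v 3

/-- The open disk of a spacelike vector, on the unit sphere. -/
def disk (n : Fin 4 → ℝ) : Set (Fin 3 → ℝ) :=
  {p | p 0 ^ 2 + p 1 ^ 2 + p 2 ^ 2 = 1 ∧ 0 < n 0 * p 0 + n 1 * p 1 + n 2 * p 2 - n 3}

/-- Inversive distance. -/
noncomputable def inv (n n' : Fin 4 → ℝ) : ℝ := -lor n n' / (√(lor n n) * √(lor n' n'))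

/-- The two shallowness conditions for a pair of disks. -/
def Shallow (n n' : Fin 4 → ℝ) : Prop := 0 < inv n n' ∧ (1 ≤ inv n n' → Disjoint (disk n) (disk n'))

variable {m : ℕ} (V : Fin m → Fin 4 → ℝ)

/-- The linear form `l` supports the cone spanned by the `V i`, and vanishes exactly at the `V i`
with `i ∈ s`. -/
def Cuts (l : (Fin 4 → ℝ) →ₗ[ℝ] ℝ) (s : Set (Fin m)) : Prop :=
  ∀ i, (i ∈ s → l (V i) = 0) ∧ (i ∉ s → 0 < l (V i))

/-- The `V i` are spacelike and are the vertex rays of a full-dimensional convex polyhedral cone. -/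
def ConvexPoly : Prop :=
  (∀ i, 0 < lor (V i) (V i)) ∧ Submodule.span ℝ (Set.range V) = ⊤ ∧ ∀ i, ∃ l, Cuts V l {i}

/-- `V i` and `V j` span an edge of the cone. -/
def Adj (i j : Fin m) : Prop := i ≠ j ∧ ∃ l, Cuts V l {i, j}

/-- Every face hyperplane (support hyperplane spanned by vertex rays) contains a timelike vector. -/
def Hyperbolic : Prop := ∀ l s, l ≠ 0 → Cuts V l s → Submodule.span ℝ (V '' s) = LinearMap.ker l →
  ∃ u, l u = 0 ∧ lor u u < 0

/-- Locally shallow. -/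
def LocShallow : Prop := ∀ i j, Adj V i j → Shallow (V i) (V j)

/-- Globally shallow. -/
def GlobShallow : Prop := ∀ i j, i ≠ j → Shallow (V i) (V j)

end Pool.Agent.H.MP_625e57_gt
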